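import Pool.Agent.Work.MP_15e198_al.Upper

set_option autoImplicit false

namespace Pool.Agent.Results.MP_15e198_al.ExactValue

open Pool.Agent.Work.MP_15e198_al

/-- The largest size `N(r,n)` of a subset of the ball of radius `n` of the free group of rank
`r ≥ 1` that freely generates a subgroup: `N(r,0) = 0`, `N(r,2m) = (2r-1)^m` for `m ≥ 1`, and
`N(r,2m+1) = r (2r-1)^m`. -/
theorem result (r n : ℕ) (hr : 1 ≤ r) :
    IsGreatest
      {k : ℕ | ∃ X : Finset (FreeGroup (Fin r)), X.card = k ∧
        (∀ g ∈ X, FreeGroup.norm g ≤ n) ∧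
        Function.Injective (FreeGroup.lift (fun x : X => (x : FreeGroup (Fin r))))}
      (if n = 0 then 0 else if Even n then (2 * r - 1) ^ (n / 2) else r * (2 * r - 1) ^ (n / 2)) := by
  haveI : Nonempty (Fin r) := ⟨⟨0, hr⟩⟩
  rcases Nat.even_or_odd' n with ⟨m, rfl | rfl⟩
  · rcases m with _ | m
    · simp only [Nat.mul_zero, if_true]
      constructor
      · refine ⟨∅, rfl, by simp, ?_⟩
        intro a b _
        exact Subsingleton.elim a b
      · rintro k ⟨X, rfl, h1, h2⟩
        exact upper_zero X h1 h2
    · rw [if_neg (by omega), if_pos (even_two_mul _), show 2 * (m + 1) / 2 = m + 1 by omega]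
      constructor
      · simpa using lower_even (α := Fin r) m
      · rintro k ⟨X, rfl, h1, h2⟩
        simpa using upper_even m X h1 h2
  · rw [if_neg (by omega), if_neg (by simp), show (2 * m + 1) / 2 = m by omega]
    constructor
    · simpa using lower_odd (α := Fin r) m
    · rintro k ⟨X, rfl, h1, h2⟩
      simpa using upper_odd m X h1 h2

end Pool.Agent.Results.MP_15e198_al.ExactValue
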